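import Pool.Agent.L0h15.FC.Main

/-!
# The schemes generated by given ones
-/

set_option autoImplicit false

namespace Pool.Agent.L0h15.FC

/-- The smallest class of schemes which contains the empty scheme and the class `R` and is closed under
localisation (two out of three), finite disjoint unions and images under finite flat morphisms. -/
inductive Generated (T : Theory) (R : T.Sch → Prop) : T.Sch → Prop
  | empty (X : T.Sch) : T.dim X = ⊥ → Generated T R X
  | base (P : T.Sch) : R P → Generated T R P
  | union (Z X U : T.Sch) : T.Dec Z X U → Generated T R Z → Generated T R U → Generated T R X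
  | isOpen (Z X U : T.Sch) : T.Dec Z X U → Generated T R Z → Generated T R X → Generated T R U
  | isClosed (Z X U : T.Sch) : T.Dec Z X U → Generated T R X → Generated T R U → Generated T R Z
  | disj (X : T.Sch) (k : ℕ) (Q : Fin k → T.Sch) : T.Disj X k Q → (∀ j, Generated T R (Q j)) →
      Generated T R X
  | image (V U : T.Sch) (d : ℕ) : T.FinFlat V U d → 0 < d → Generated T R V → Generated T R U

/-- The components of `X` of maximal dimension are dominated by members of the class `R`: a dense open
subscheme `U` of `X` is the image under a finite flat morphism of a dense open subscheme `V` of a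
disjoint union of members of `R`, and the complements of `U` and `V` are of smaller dimension than
`X`. -/
def Dominated (T : Theory) (R : T.Sch → Prop) (X : T.Sch) : Prop :=
  ∃ Z U Z' V W k Q d, T.Dec Z X U ∧ T.dim Z < T.dim X ∧ Nonempty (T.FinFlat V U d) ∧ 0 < d ∧
    T.Dec Z' W V ∧ T.dim Z' < T.dim X ∧ T.Disj W k Q ∧ ∀ j, R (Q j)

variable {T : Theory} {R : T.Sch → Prop}

theorem fg_of_generated (hT : T.Known) {n : ℤ} (hn : n < 0)
    (hR : ∀ P, R P → ∀ i, FG (T.H P n i)) {X : T.Sch} (hX : Generated T R X) :
    ∀ i, FG (T.H X n i) := by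
  induction hX with
  | empty X h => exact fun i => cls_fg.sub _ (hT.empty X h n i)
  | base P h => exact hR P h
  | union Z X U h _ _ h1 h2 =>
    exact fun i => cls_fg.mid _ _ (hT.exact_incl h n i hn.le) (h1 i) (h2 i)
  | isOpen Z X U h _ _ h1 h2 =>
    exact fun i => cls_fg.mid _ _ (hT.exact_res h n i hn.le) (h2 i) (h1 (i + 1))
  | isClosed Z X U h _ _ h1 h2 =>
    intro i
    have h3 := cls_fg.mid _ _ (hT.exact_bd h n (i - 1) hn.le) (h2 (i - 1)) (h1 (i - 1 + 1))
    rwa [sub_add_cancel] at h3
  | disj X k Q h _ h1 => exact fun i => cls_fg.prod (hT.disj X k Q h n i) fun j => h1 j i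
  | image V U d f hd _ h1 =>
    intro i
    refine cls_fg.cover (T.pull f n i) d hd (fun x hx => ?_) (hT.torsion U n i hn) (h1 i)
    rw [← hT.push_pull f n i x, hx]
    exact map_zero (show T.H V n i →+ T.H U n i from T.push f n i)

theorem generated_of_dominated {X : T.Sch} (hX : Dominated T R X)
    (hlow : ∀ Y, T.dim Y < T.dim X → Generated T R Y) : Generated T R X := by
  obtain ⟨Z, U, Z', V, W, k, Q, d, h1, h2, ⟨f⟩, hd, h3, h4, h5, h6⟩ := hX
  refine Generated.union Z X U h1 (hlow Z h2) (Generated.image V U d f hd ?_)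
  exact Generated.isOpen Z' W V h3 (hlow Z' h4) (Generated.disj W k Q h5 fun j =>
    Generated.base _ (h6 j))

/-- all schemes of dimension at most 1 -/
theorem generated_of_dim_one (hT : T.Known)
    (h1 : ∀ P, T.Arith P ∨ T.Geom P → T.dim P ≤ 1 → R P) :
    ∀ X, T.dim X ≤ 1 → Generated T R X := by
  have key : ∀ e : WithBot ℕ, ∀ X, T.dim X = e → e ≤ 1 → Generated T R X := by
    intro e
    induction e using WellFoundedLT.induction with
    | ind e ih =>
      intro X hX he
      by_cases hbot : T.dim X = ⊥
      · exact Generated.empty X hbot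
      · refine generated_of_dominated (R := R) ?_ (fun Y hY => ih _ (hX ▸ hY) Y rfl
          ((hX ▸ hY).le.trans he))
        obtain ⟨Z, U, Z', V, W, k, Q, d, h2, h3, h4, h5, h6, h7, h8, h9, -⟩ := hT.alteration X hbot
        exact ⟨Z, U, Z', V, W, k, Q, d, h2, h3, h4, h5, h6, h7, h8, fun j =>
          h1 (Q j) (h9 j).1 ((h9 j).2.trans (hX.le.trans he))⟩
  exact fun X hX => key _ X rfl hX

/-- schemes of dimension at most 2 -/
theorem generated_of_dim_two (hT : T.Known)
    (h1 : ∀ P, T.Arith P ∨ T.Geom P → T.dim P ≤ 1 → R P) (X : T.Sch) (hX : T.dim X ≤ 2)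
    (hdom : Dominated T R X) : Generated T R X := by
  refine generated_of_dominated hdom fun Y hY => generated_of_dim_one hT h1 Y ?_
  have h2 : T.dim Y < 2 := hY.trans_le hX
  rcases h : T.dim Y with _ | m
  · exact bot_le
  · rw [h] at h2
    have h3 : m < 2 := by
      have : ((m : ℕ) : WithBot ℕ) < ((2 : ℕ) : WithBot ℕ) := h2
      exact_mod_cast this
    have h4 : m ≤ 1 := by omega
    have : ((m : ℕ) : WithBot ℕ) ≤ ((1 : ℕ) : WithBot ℕ) := by exact_mod_cast h4
    exact this

end Pool.Agent.L0h15.FC
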