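import Mathlib

/-!
# Etale cohomology of cycle complexes of arithmetic schemes in negative weights
-/

set_option autoImplicit false

namespace Pool.Agent.L0h15.FC

/-- an abelian group -/
structure Ab where
  /-- the elements -/
  carrier : Type
  [grp : AddCommGroup carrier]

attribute [instance] Ab.grp

instance : CoeSort Ab Type := ⟨Ab.carrier⟩

/-- homomorphisms -/
def Hom (A B : Ab) : Type := A →+ B

/-- the value of a homomorphism -/
def ap {A B : Ab} (f : Hom A B) (x : A) : B := (show A →+ B from f) x

/-- the sequence `A → B → C` is exact at `B` -/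
def Ex {A B C : Ab} (f : Hom A B) (g : Hom B C) : Prop := ∀ x, ap g x = 0 ↔ ∃ y, ap f y = x

/-- `A` is isomorphic to the product of the groups `B j` -/
def IsProd (A : Ab) {k : ℕ} (B : Fin k → Ab) : Prop := Nonempty (A ≃+ (∀ j, B j))

/-- the groups are isomorphic -/
def Iso (A B : Ab) : Prop := Nonempty (A ≃+ B)

/-- finitely generated -/
def FG (A : Ab) : Prop := AddGroup.FG A

/-- every element is of finite order -/
def Tors (A : Ab) : Prop := ∀ x : A, ∃ m : ℕ, 0 < m ∧ m • x = 0

/-- the elements killed by `m` are finite in number, for every `m > 0` -/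
def FiniteTorsion (A : Ab) : Prop := ∀ m : ℕ, 0 < m → {x : A | m • x = 0}.Finite

/-- the torsion elements form a finite group, and the quotient by them is divisible; so the group is
the sum of a finite group and a vector space over `ℚ` -/
def FiniteByRational (A : Ab) : Prop :=
  {x : A | ∃ m : ℕ, 0 < m ∧ m • x = 0}.Finite ∧
    ∀ (x : A) (m : ℕ), 0 < m → ∃ y : A, ∃ l : ℕ, 0 < l ∧ l • (x - m • y) = 0

/-- The arithmetic schemes (separated of finite type over `ℤ`) and their groups
`H^i(X_et, ℤ^c(n))`. -/
structure Theory where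
  /-- the arithmetic schemes -/
  Sch : Type
  /-- the Krull dimension, `⊥` for the empty scheme -/
  dim : Sch → WithBot ℕ
  /-- `H X n i` is the group `H^i(X_et, ℤ^c(n))` -/
  H : Sch → ℤ → ℤ → Ab
  /-- `Z` is a closed subscheme of `X` and `U` is its open complement (with the structure of an open
  subscheme or with the reduced structure; the groups only depend on the reduced scheme) -/
  Dec : Sch → Sch → Sch → Prop
  incl : ∀ {Z X U}, Dec Z X U → ∀ n i, Hom (H Z n i) (H X n i)
  res : ∀ {Z X U}, Dec Z X U → ∀ n i, Hom (H X n i) (H U n i)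
  bd : ∀ {Z X U}, Dec Z X U → ∀ n i, Hom (H U n i) (H Z n (i + 1))
  /-- `X` is the disjoint union of the schemes `Q j` -/
  Disj : Sch → ∀ k : ℕ, (Fin k → Sch) → Prop
  /-- the affine space over a scheme -/
  aff : Sch → ℕ → Sch
  /-- finite flat morphisms of degree `d` from `V` to `U` -/
  FinFlat : Sch → Sch → ℕ → Type
  pull : ∀ {V U d}, FinFlat V U d → ∀ n i, Hom (H U n i) (H V n i)
  push : ∀ {V U d}, FinFlat V U d → ∀ n i, Hom (H V n i) (H U n i)
  /-- the connected regular schemes which are projective and flat over `ℤ` -/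
  Arith : Sch → Prop
  /-- the connected smooth projective varieties over finite fields -/
  Geom : Sch → Prop
  /-- the schemes all of whose points have positive residue characteristic -/
  Char : Sch → Prop

/-- the known properties in weights `n ≤ 0` (`n < 0` for the finiteness statements) -/
structure Theory.Known (T : Theory) : Prop where
  empty : ∀ X, T.dim X = ⊥ → ∀ n i, Subsingleton (T.H X n i)
  /-- the localisation sequence (Geisser) -/
  exact_incl : ∀ {Z X U} (h : T.Dec Z X U) n i, n ≤ 0 → Ex (T.incl h n i) (T.res h n i)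
  exact_res : ∀ {Z X U} (h : T.Dec Z X U) n i, n ≤ 0 → Ex (T.res h n i) (T.bd h n i)
  exact_bd : ∀ {Z X U} (h : T.Dec Z X U) n i, n ≤ 0 → Ex (T.bd h n i) (T.incl h n (i + 1))
  disj : ∀ X k Q, T.Disj X k Q → ∀ n i, IsProd (T.H X n i) fun j => T.H (Q j) n i
  dim_aff : ∀ X (r : ℕ), T.dim (T.aff X r) = T.dim X + r
  char_aff : ∀ X r, T.Char X → T.Char (T.aff X r)
  /-- the homotopy formula -/
  shift : ∀ X (r : ℕ) n i, n ≤ 0 → Iso (T.H X (n - r) i) (T.H (T.aff X r) n (i - 2 * r))
  /-- the composition of inverse and direct image is the multiplication by the degree -/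
  push_pull : ∀ {V U d} (f : T.FinFlat V U d) n i x, ap (T.push f n i) (ap (T.pull f n i) x) = d • x
  /-- cohomology with finite coefficients is finite in weights `n < 0` -/
  torsion : ∀ X n i, n < 0 → FiniteTorsion (T.H X n i)
  /-- alterations (de Jong): `X` contains a dense open subscheme `U`, `V` is finite and flat over `U` and
  is a dense open subscheme of a disjoint union `W` of regular schemes projective over `ℤ` -/
  alteration : ∀ X, T.dim X ≠ ⊥ → ∃ Z U Z' V W k Q d, T.Dec Z X U ∧ T.dim Z < T.dim X ∧
    Nonempty (T.FinFlat V U d) ∧ 0 < d ∧ T.Dec Z' W V ∧ T.dim Z' < T.dim X ∧ T.Disj W k Q ∧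
    (∀ j, (T.Arith (Q j) ∨ T.Geom (Q j)) ∧ T.dim (Q j) ≤ T.dim X) ∧
    (T.Char X → T.Char Z ∧ T.Char Z' ∧ ∀ j, T.Geom (Q j))
  geom_char : ∀ P, T.Geom P → T.Char P
  /-- the Weil conjectures (Deligne) and Gabber's theorem on torsion: for a smooth projective variety over
  a finite field the cohomology with coefficients `ℚ/ℤ(n)`, `n < 0`, is finite -/
  geom : ∀ P n i, T.Geom P → n < 0 → FiniteByRational (T.H P n i)
  /-- for proper regular schemes, finite generation in all degrees follows from the degrees up to
  `1 - 2 n` (duality) -/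
  degrees : ∀ P n, T.Arith P → n < 0 → (∀ i, i ≤ 1 - 2 * n → FG (T.H P n i)) → ∀ i, FG (T.H P n i)

end Pool.Agent.L0h15.FC
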