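import Pool.Agent.L0h15.FC.Defs

/-!
# Devissage
-/

set_option autoImplicit false

namespace Pool.Agent.L0h15.FC

/-- the closure properties of a class of abelian groups which are used -/
structure Cls (C : Ab → Prop) : Prop where
  mid : ∀ {A B D : Ab} (f : Hom A B) (g : Hom B D), Ex f g → C A → C D → C B
  cover : ∀ {A B : Ab} (f : Hom A B) (d : ℕ), 0 < d → (∀ x, ap f x = 0 → d • x = 0) →
    FiniteTorsion A → C B → C A
  prod : ∀ {A : Ab} {k : ℕ} {B : Fin k → Ab}, IsProd A B → (∀ j, C (B j)) → C A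
  sub : ∀ A : Ab, Subsingleton A → C A

theorem fg_iff (A : Ab) : FG A ↔ Module.Finite ℤ A := by
  rw [FG, ← Module.Finite.iff_addGroup_fg]

theorem fg_of_ker {A B : Ab} (g : Hom A B) (hk : (LinearMap.ker
    (show A →+ B from g).toIntLinearMap).FG) (hB : FG B) : FG A := by
  rw [fg_iff] at hB ⊢
  refine ⟨Submodule.fg_of_fg_map_of_fg_inf_ker (show A →+ B from g).toIntLinearMap ?_ ?_⟩
  · exact IsNoetherian.noetherian _
  · rw [top_inf_eq]
    exact hk

theorem cls_fg : Cls FG where
  mid := by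
    intro A B D f g hfg hA hD
    refine fg_of_ker g ?_ hD
    have h : LinearMap.ker (show B →+ D from g).toIntLinearMap =
        LinearMap.range (show A →+ B from f).toIntLinearMap := by
      ext x
      exact hfg x
    rw [h]
    rw [fg_iff] at hA
    exact Submodule.fg_top _ |>.1 (by
      exact Module.Finite.fg_top)
  cover := by
    intro A B f d hd hker htor hB
    refine fg_of_ker f ?_ hB
    have h : ((LinearMap.ker (show A →+ B from f).toIntLinearMap : Submodule ℤ A) : Set A).Finite := by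
      refine (htor d hd).subset fun x hx => ?_
      exact hker x hx
    have : Finite (LinearMap.ker (show A →+ B from f).toIntLinearMap) := h
    exact Module.Finite.iff_fg.1 inferInstance
  prod := by
    rintro A k B ⟨e⟩ hB
    rw [fg_iff]
    have : ∀ j, Module.Finite ℤ (B j) := fun j => (fg_iff _).1 (hB j)
    exact Module.Finite.equiv e.symm.toIntLinearEquiv
  sub := by
    intro A hA
    rw [fg_iff]
    infer_instance

theorem finite_of_fibers {α β : Type} [Finite β] (f : α → β)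
    (h : ∀ y, (f ⁻¹' {y}).Finite) : Finite α := by
  have h1 : (⋃ y, f ⁻¹' {y}).Finite := Set.finite_iUnion h
  have h2 : (⋃ y, f ⁻¹' {y}) = Set.univ := by
    ext x
    simp
  rw [h2] at h1
  exact Set.finite_univ_iff.1 h1

theorem cls_finite : Cls (fun A => Finite A) where
  mid := by
    intro A B D f g hfg hA hD
    refine finite_of_fibers (ap g) fun y => ?_
    rcases Set.eq_empty_or_nonempty (ap g ⁻¹' {y}) with h | ⟨b, hb⟩
    · rw [h]; exact Set.finite_empty
    · refine ((Set.finite_range (ap f)).image fun x => b + x).subset fun x hx => ?_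
      have h1 : ap g (x - b) = 0 := by
        change (show B →+ D from g) (x - b) = 0
        rw [map_sub, sub_eq_zero]
        exact hx.trans hb.symm
      obtain ⟨a, ha⟩ := (hfg _).1 h1
      exact ⟨ap f a, ⟨a, rfl⟩, by simp only [ha]; abel⟩
  cover := by
    intro A B f d hd hker htor hB
    refine finite_of_fibers (ap f) fun y => ?_
    rcases Set.eq_empty_or_nonempty (ap f ⁻¹' {y}) with h | ⟨b, hb⟩
    · rw [h]; exact Set.finite_empty
    · refine ((htor d hd).image fun x => b + x).subset fun x hx => ?_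
      have h1 : ap f (x - b) = 0 := by
        change (show A →+ B from f) (x - b) = 0
        rw [map_sub, sub_eq_zero]
        exact hx.trans hb.symm
      exact ⟨x - b, hker _ h1, by simp only []; abel⟩
  prod := by
    rintro A k B ⟨e⟩ hB
    exact Finite.of_equiv _ e.symm.toEquiv
  sub := by
    intro A hA
    infer_instance

variable {T : Theory}

/-- the devissage for a class of schemes `K` and a class of regular projective schemes `R` -/
theorem devissage (hT : T.Known) {C : Ab → Prop} (hC : Cls C) (K R : T.Sch → Prop)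
    (hK : ∀ X, K X → T.dim X ≠ ⊥ → ∃ Z U Z' V W k Q d, T.Dec Z X U ∧ T.dim Z < T.dim X ∧
      Nonempty (T.FinFlat V U d) ∧ 0 < d ∧ T.Dec Z' W V ∧ T.dim Z' < T.dim X ∧ T.Disj W k Q ∧
      (∀ j, R (Q j) ∧ T.dim (Q j) ≤ T.dim X) ∧ K Z ∧ K Z')
    {n : ℤ} (hn : n < 0) (δ : WithBot ℕ)
    (hR : ∀ P, R P → T.dim P ≤ δ → ∀ i, C (T.H P n i)) :
    ∀ X, K X → T.dim X ≤ δ → ∀ i, C (T.H X n i) := by
  have key : ∀ e : WithBot ℕ, ∀ X, T.dim X = e → K X → e ≤ δ → ∀ i, C (T.H X n i) := by
    intro e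
    induction e using WellFoundedLT.induction with
    | ind e ih =>
      intro X hX hKX he i
      by_cases hbot : T.dim X = ⊥
      · exact hC.sub _ (hT.empty X hbot n i)
      · obtain ⟨Z, U, Z', V, W, k, Q, d, h1, h2, ⟨f⟩, hd, h3, h4, h5, h6, h7, h8⟩ := hK X hKX hbot
        rw [hX] at h2 h4 h6
        have hZ : ∀ i, C (T.H Z n i) := ih _ h2 Z rfl h7 (h2.le.trans he)
        have hZ' : ∀ i, C (T.H Z' n i) := ih _ h4 Z' rfl h8 (h4.le.trans he)
        have hW : ∀ i, C (T.H W n i) := fun i =>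
          hC.prod (hT.disj W k Q h5 n i) fun j => hR (Q j) (h6 j).1 ((h6 j).2.trans he) i
        have hV : ∀ i, C (T.H V n i) := fun i =>
          hC.mid _ _ (hT.exact_res h3 n i hn.le) (hW i) (hZ' (i + 1))
        have hU : ∀ i, C (T.H U n i) := fun i =>
          hC.cover (T.pull f n i) d hd (fun x hx => by
            rw [← hT.push_pull f n i x, hx]
            exact map_zero (show T.H V n i →+ T.H U n i from T.push f n i))
            (hT.torsion U n i hn) (hV i)
        exact hC.mid _ _ (hT.exact_incl h1 n i hn.le) (hZ i) (hU i)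
  exact fun X hKX hX i => key _ X rfl hKX hX i

theorem devissage_all (hT : T.Known) {C : Ab → Prop} (hC : Cls C) {n : ℤ} (hn : n < 0)
    (δ : WithBot ℕ) (hA : ∀ P, T.Arith P → T.dim P ≤ δ → ∀ i, C (T.H P n i))
    (hG : ∀ P, T.Geom P → T.dim P ≤ δ → ∀ i, C (T.H P n i)) :
    ∀ X, T.dim X ≤ δ → ∀ i, C (T.H X n i) := by
  intro X hX i
  refine devissage hT hC (fun _ => True) (fun P => T.Arith P ∨ T.Geom P) ?_ hn δ ?_ X trivial hX i
  · intro X _ hbot
    obtain ⟨Z, U, Z', V, W, k, Q, d, h1, h2, h3, h4, h5, h6, h7, h8, -⟩ := hT.alteration X hbot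
    exact ⟨Z, U, Z', V, W, k, Q, d, h1, h2, h3, h4, h5, h6, h7, h8, trivial, trivial⟩
  · intro P hP hdim i
    rcases hP with hP | hP
    · exact hA P hP hdim i
    · exact hG P hP hdim i

theorem devissage_char (hT : T.Known) {C : Ab → Prop} (hC : Cls C) {n : ℤ} (hn : n < 0)
    (hG : ∀ P, T.Geom P → ∀ i, C (T.H P n i)) :
    ∀ X, T.Char X → ∀ i, C (T.H X n i) := by
  intro X hX i
  refine devissage hT hC T.Char T.Geom ?_ hn (T.dim X) (fun P hP _ i => hG P hP i) X hX le_rfl i
  intro X hX hbot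
  obtain ⟨Z, U, Z', V, W, k, Q, d, h1, h2, h3, h4, h5, h6, h7, h8, h9⟩ := hT.alteration X hbot
  obtain ⟨h10, h11, h12⟩ := h9 hX
  exact ⟨Z, U, Z', V, W, k, Q, d, h1, h2, h3, h4, h5, h6, h7, fun j => ⟨h12 j, (h8 j).2⟩, h10, h11⟩

/-- a group which is finite by rational and torsion is finite -/
theorem finite_of_tors {A : Ab} (h : FiniteByRational A) (ht : Tors A) : Finite A := by
  have h1 : (Set.univ : Set A).Finite := h.1.subset fun x _ => ht x
  exact Set.finite_univ_iff.1 h1

theorem tors_of_finite {A : Ab} (h : Finite A) : Tors A := fun x =>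
  ⟨Nat.card A, Nat.card_pos, by
    have := card_nsmul_eq_zero' (x := x)
    exact this⟩

/-- a finitely generated group which is finite by rational is torsion -/
theorem tors_of_fg {A : Ab} (h : FiniteByRational A) (hfg : FG A) : Tors A := by
  classical
  obtain ⟨h1, h2⟩ := h
  -- a common multiple of the orders of the torsion elements
  obtain ⟨l, hl, hl2⟩ : ∃ l : ℕ, 0 < l ∧ ∀ t : A, (∃ m : ℕ, 0 < m ∧ m • t = 0) → l • t = 0 := by
    have hm : ∀ t : A, ∃ m : ℕ, 0 < m ∧ ((∃ m' : ℕ, 0 < m' ∧ m' • t = 0) → m • t = 0) := by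
      intro t
      by_cases ht : ∃ m' : ℕ, 0 < m' ∧ m' • t = 0
      · obtain ⟨m, hm, hm2⟩ := ht
        exact ⟨m, hm, fun _ => hm2⟩
      · exact ⟨1, one_pos, fun h => absurd h ht⟩
    choose m hm1 hm2 using hm
    refine ⟨∏ t ∈ h1.toFinset, m t, Finset.prod_pos fun t _ => hm1 t, fun t ht => ?_⟩
    have hmem : t ∈ h1.toFinset := h1.mem_toFinset.2 ht
    obtain ⟨q, hq⟩ := Finset.dvd_prod_of_mem m hmem
    rw [hq, mul_comm, mul_nsmul', hm2 t ht, nsmul_zero]
  rw [fg_iff] at hfg
  let N : Submodule ℤ A := LinearMap.range ((LinearMap.lsmul ℤ A (l : ℤ)))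
  have hN : N.FG := IsNoetherian.noetherian _
  have hle : N ≤ (Ideal.span {(2 : ℤ)}) • N := by
    rintro _ ⟨x, rfl⟩
    obtain ⟨y, k, hk, hk2⟩ := h2 x 2 two_pos
    have h3 : l • (x - 2 • y) = 0 := hl2 _ ⟨k, hk, hk2⟩
    have h4 : (LinearMap.lsmul ℤ A (l : ℤ)) x = (2 : ℤ) • (LinearMap.lsmul ℤ A (l : ℤ)) y := by
      simp only [LinearMap.lsmul_apply]
      have h5 : l • x = l • (2 • y) := by
        rw [← sub_eq_zero, ← nsmul_sub]
        exact h3
      rw [natCast_zsmul, natCast_zsmul, h5]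
      rw [← mul_nsmul', ← natCast_zsmul, ← natCast_zsmul, smul_smul]
      push_cast
      ring_nf
    rw [h4]
    exact Submodule.smul_mem_smul (Ideal.mem_span_singleton_self 2) ⟨y, rfl⟩
  obtain ⟨r, hr1, hr2⟩ := Submodule.exists_sub_one_mem_and_smul_eq_zero_of_fg_of_le_smul _ _ hN hle
  have hr0 : r ≠ 0 := by
    rintro rfl
    rw [Ideal.mem_span_singleton] at hr1
    omega
  intro x
  have h6 : r • ((l : ℤ) • x) = 0 := hr2 _ ⟨x, rfl⟩
  refine ⟨r.natAbs * l, Nat.mul_pos (Int.natAbs_pos.2 hr0) hl, ?_⟩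
  rw [smul_smul] at h6
  have h7 : ((r.natAbs * l : ℕ) : ℤ) • x = 0 := by
    push_cast
    rcases abs_choice r with h9 | h9
    · rw [h9]; exact h6
    · rw [h9, neg_mul, neg_smul, h6, neg_zero]
  rwa [natCast_zsmul] at h7

theorem fg_of_finite {A : Ab} (h : Finite A) : FG A := by
  rw [fg_iff]
  infer_instance

theorem fg_iso {A B : Ab} (h : Iso A B) (hB : FG B) : FG A := by
  obtain ⟨e⟩ := h
  rw [fg_iff] at hB ⊢
  exact Module.Finite.equiv e.symm.toIntLinearEquiv

theorem finite_iso {A B : Ab} (h : Iso A B) (hB : Finite B) : Finite A := by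
  obtain ⟨e⟩ := h
  exact Finite.of_equiv _ e.symm.toEquiv

end Pool.Agent.L0h15.FC
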